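import Mathlib

namespace Pool.Agent.Results.MP_071a69_co.Wheel7

open SimpleGraph Finset

/-- The wheel on `n` vertices: the cycle on `Fin (n-1)` plus the hub `none`. -/
def wheel (n : ℕ) : SimpleGraph (Option (Fin (n - 1))) :=
  SimpleGraph.fromRel fun a b =>
    match a, b with
    | none, some _ => True
    | some x, some y => (cycleGraph (n - 1)).Adj x y
    | _, none => False

/-- Geodesic paths, each recorded by its edge set (so a path and its reverse count once). -/
def Geo {V : Type} [DecidableEq V] (G : SimpleGraph V) : Set (Finset (Sym2 V)) :=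
  {E | ∃ (u v : V) (p : G.Walk u v), p.IsPath ∧ 1 ≤ p.length ∧ p.length = G.dist u v ∧
    E = p.edges.toFinset}

/-- `G` has a geodesic Leech labeling. -/
def IsGeodesicLeech {V : Type} [DecidableEq V] (G : SimpleGraph V) : Prop :=
  ∃ f : Sym2 V → ℕ, (∀ e ∈ G.edgeSet, 0 < f e) ∧
    (fun E : Finset (Sym2 V) => ∑ e ∈ E, f e) '' Geo G = Set.Icc 1 (Geo G).ncard

abbrev V7 := Option (Fin (7 - 1))

def adjB : V7 → V7 → Bool
  | none, none => false
  | none, some _ => true
  | some _, none => true
  | some x, some y => (x.1 + 1) % 6 = y.1 || (y.1 + 1) % 6 = x.1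

lemma adj_iff (a b : V7) : (wheel 7).Adj a b ↔ adjB a b = true := by
  unfold wheel
  rw [SimpleGraph.fromRel_adj]
  rcases a with _ | a <;> rcases b with _ | b
  · simp [adjB]
  · simp [adjB]
  · simp [adjB]
  · simp only [ne_eq, Option.some.injEq]
    revert a b
    decide

def S : Finset (Finset (Sym2 V7)) :=
  ((univ : Finset (V7 × V7)).filter (fun q => adjB q.1 q.2 = true)).image
      (fun q => ({s(q.1, q.2)} : Finset (Sym2 V7))) ∪
    ((univ : Finset (V7 × V7 × V7)).filter (fun q => adjB q.1 q.2.1 = true ∧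
      adjB q.2.1 q.2.2 = true ∧ q.1 ≠ q.2.2 ∧ adjB q.1 q.2.2 = false)).image
      (fun q => ({s(q.1, q.2.1), s(q.2.1, q.2.2)} : Finset (Sym2 V7)))

lemma dist_le (u v : V7) : (wheel 7).dist u v ≤ 2 := by
  have h : ∀ u v : V7, u = v ∨ adjB u v = true ∨ (adjB u none = true ∧ adjB none v = true) := by
    decide
  rcases h u v with rfl | h1 | ⟨h1, h2⟩
  · simp
  · rw [SimpleGraph.dist_eq_one_iff_adj.2 ((adj_iff _ _).2 h1)]; omega
  · exact SimpleGraph.dist_le (Walk.cons ((adj_iff _ _).2 h1) (Walk.cons ((adj_iff _ _).2 h2) Walk.nil))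

lemma geo_eq : Geo (wheel 7) = ↑S := by
  ext E
  simp only [Geo, S, Set.mem_ofPred_eq, coe_union, coe_image, coe_filter, mem_univ, true_and,
    Set.mem_union, Set.mem_image]
  constructor
  · rintro ⟨u, v, p, hp, h1, h2, rfl⟩
    have h3 := dist_le u v
    cases p with
    | nil => simp at h1
    | cons h q =>
      cases q with
      | nil => exact Or.inl ⟨(u, v), (adj_iff _ _).1 h, by simp⟩
      | cons h' r =>
        cases r with
        | cons h'' r => simp only [Walk.length_cons] at h2; omega
        | nil =>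
          refine Or.inr ⟨(u, _, v), ⟨(adj_iff _ _).1 h, (adj_iff _ _).1 h', ?_, ?_⟩, by simp⟩
          · intro h5
            have h6 : u = v := h5
            subst h6
            simp at h2
          · by_contra h4
            have := SimpleGraph.dist_eq_one_iff_adj.2 ((adj_iff u v).2 (by simpa using h4))
            simp only [Walk.length_cons, Walk.length_nil] at h2
            omega
  · rintro (⟨⟨u, v⟩, h, rfl⟩ | ⟨⟨u, w, v⟩, ⟨h1, h2, h3, h4⟩, rfl⟩)
    · have h' := (adj_iff _ _).2 h
      refine ⟨u, v, Walk.cons h' Walk.nil, by simp [h'.ne], by simp, ?_, by simp⟩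
      rw [SimpleGraph.dist_eq_one_iff_adj.2 h']; simp
    · have h1' := (adj_iff _ _).2 h1
      have h2' := (adj_iff _ _).2 h2
      simp only at h1' h2' h3 h4
      refine ⟨u, v, Walk.cons h1' (Walk.cons h2' Walk.nil), by simp [h1'.ne, h2'.ne, h3], by simp,
        ?_, by simp⟩
      have a1 := dist_le u v
      have a2 : (wheel 7).dist u v ≠ 1 := fun h => by
        have := (adj_iff _ _).1 (SimpleGraph.dist_eq_one_iff_adj.1 h)
        rw [h4] at this; exact absurd this (by decide)
      have a3 : 0 < (wheel 7).dist u v :=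
        (Walk.cons h1' (Walk.cons h2' Walk.nil)).reachable.pos_dist_of_ne h3
      simp only [Walk.length_cons, Walk.length_nil]
      omega

def g : V7 → V7 → ℕ
  | none, none => 1
  | none, some x => [1, 2, 3, 8, 12, 19].getD x.1 1
  | some x, none => [1, 2, 3, 8, 12, 19].getD x.1 1
  | some x, some y =>
    if (x.1 + 1) % 6 = y.1 then [5, 11, 7, 17, 6, 20].getD x.1 1
    else if (y.1 + 1) % 6 = x.1 then [5, 11, 7, 17, 6, 20].getD y.1 1 else 1

def f : Sym2 V7 → ℕ := Sym2.lift ⟨g, by decide⟩

theorem result : ¬ ∀ n : ℕ, 7 ≤ n → ¬ IsGeodesicLeech (wheel n) := by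
  intro h
  refine h 7 le_rfl ⟨f, ?_, ?_⟩
  · intro e he
    clear he
    induction e using Sym2.ind with
    | _ a b =>
      show 0 < g a b
      revert a b
      decide
  · rw [geo_eq, Set.ncard_coe_finset, ← Finset.coe_image, ← Finset.coe_Icc, Finset.coe_inj]
    decide +kernel

end Pool.Agent.Results.MP_071a69_co.Wheel7
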